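import Mathlib

set_option autoImplicit false

namespace Pool.Agent.W514.Shadow

open Set

/-! ### General facts on convex hulls of six points -/

theorem mem_hull {n : ℕ} (g : Fin 6 → (Fin n → ℝ)) {x : Fin n → ℝ} :
    x ∈ convexHull ℝ (Set.range g) ↔
      ∃ w : Fin 6 → ℝ, (∀ i, 0 ≤ w i) ∧ ∑ i, w i = 1 ∧ ∑ i, w i • g i = x := by
  constructor
  · intro hx
    have hsub : convexHull ℝ (Set.range g) ⊆
        {x | ∃ w : Fin 6 → ℝ, (∀ i, 0 ≤ w i) ∧ ∑ i, w i = 1 ∧ ∑ i, w i • g i = x} := by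
      refine convexHull_min ?_ ?_
      · rintro _ ⟨i, rfl⟩
        refine ⟨Pi.single i 1, ?_, ?_, ?_⟩
        · intro j
          by_cases h : j = i
          · subst h; simp
          · simp [h]
        · simp
        · simp [Pi.single_apply]
      · rintro x ⟨w, hw0, hw1, rfl⟩ y ⟨w', hw0', hw1', rfl⟩ a b ha hb hab
        refine ⟨fun i => a * w i + b * w' i, ?_, ?_, ?_⟩
        · intro i
          have := mul_nonneg ha (hw0 i)
          have := mul_nonneg hb (hw0' i)
          simp only []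
          linarith
        · rw [Finset.sum_add_distrib, ← Finset.mul_sum, ← Finset.mul_sum, hw1, hw1']
          linarith
        · simp only [add_smul, Finset.sum_add_distrib, mul_smul, Finset.smul_sum]
    exact hsub hx
  · rintro ⟨w, hw0, hw1, rfl⟩
    exact mem_convexHull_of_exists_fintype w g hw0 hw1 (fun i => ⟨i, rfl⟩) rfl

/-- Exposed segments are extreme. -/
theorem expo (g : Fin 6 → (Fin 3 → ℝ)) (α : Fin 3 → ℝ) (δ : ℝ) (u v : Fin 6)
    (h0 : ∀ i, 0 ≤ α 0 * g i 0 + α 1 * g i 1 + α 2 * g i 2 + δ)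
    (hz : ∀ i, α 0 * g i 0 + α 1 * g i 1 + α 2 * g i 2 + δ = 0 → i = u ∨ i = v)
    (hu : α 0 * g u 0 + α 1 * g u 1 + α 2 * g u 2 + δ = 0)
    (hv : α 0 * g v 0 + α 1 * g v 1 + α 2 * g v 2 + δ = 0) :
    IsExtreme ℝ (convexHull ℝ (Set.range g)) (segment ℝ (g u) (g v)) := by
  set s : (Fin 3 → ℝ) → ℝ := fun x => α 0 * x 0 + α 1 * x 1 + α 2 * x 2 + δ with hs
  have hcomb : ∀ w : Fin 6 → ℝ, ∑ i, w i = 1 → s (∑ i, w i • g i) = ∑ i, w i * s (g i) := by
    intro w hw
    have h1 : ∀ k : Fin 3, (∑ i, w i • g i) k = ∑ i, w i * g i k := by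
      intro k
      rw [Finset.sum_apply]
      rfl
    simp only [hs, h1]
    calc α 0 * ∑ i, w i * g i 0 + α 1 * ∑ i, w i * g i 1 + α 2 * ∑ i, w i * g i 2 + δ
        = α 0 * ∑ i, w i * g i 0 + α 1 * ∑ i, w i * g i 1 + α 2 * ∑ i, w i * g i 2
            + δ * ∑ i, w i := by rw [hw]; ring
      _ = ∑ i, w i * (α 0 * g i 0 + α 1 * g i 1 + α 2 * g i 2 + δ) := by
          rw [Finset.mul_sum, Finset.mul_sum, Finset.mul_sum, Finset.mul_sum,
            ← Finset.sum_add_distrib, ← Finset.sum_add_distrib, ← Finset.sum_add_distrib]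
          refine Finset.sum_congr rfl (fun i _ => by ring)
  have hnn : ∀ x ∈ convexHull ℝ (Set.range g), 0 ≤ s x := by
    intro x hx
    obtain ⟨w, hw0, hw1, rfl⟩ := (mem_hull g).1 hx
    rw [hcomb w hw1]
    exact Finset.sum_nonneg (fun i _ => mul_nonneg (hw0 i) (h0 i))
  have haff : ∀ (x y : Fin 3 → ℝ) (a b : ℝ), a + b = 1 → s (a • x + b • y) = a * s x + b * s y := by
    intro x y a b hab
    simp only [hs, Pi.add_apply, Pi.smul_apply, smul_eq_mul]
    have : δ = (a + b) * δ := by rw [hab]; ring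
    nlinarith [this]
  have hmem : ∀ i, g i ∈ convexHull ℝ (Set.range g) := fun i => subset_convexHull ℝ _ ⟨i, rfl⟩
  refine ⟨(convex_convexHull ℝ _).segment_subset (hmem u) (hmem v), ?_⟩
  intro x hx y hy z hz1 hz2
  obtain ⟨a, b, ha, hb, hab, rfl⟩ := hz1
  have hsz : s (a • g u + b • g v) = 0 := by
    rw [haff _ _ _ _ hab]
    simp only [hs] at hu hv ⊢
    rw [hu, hv]; ring
  obtain ⟨a', b', ha', hb', hab', he⟩ := hz2
  rw [← he, haff _ _ _ _ hab'] at hsz
  have hsx : s x = 0 := by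
    have h1 := mul_nonneg ha'.le (hnn x hx)
    have h2 := mul_nonneg hb'.le (hnn y hy)
    have h3 : a' * s x = 0 := by linarith
    rcases mul_eq_zero.1 h3 with h | h
    · exact absurd h ha'.ne'
    · exact h
  obtain ⟨w, hw0, hw1, rfl⟩ := (mem_hull g).1 hx
  rw [hcomb w hw1] at hsx
  have hterm := (Finset.sum_eq_zero_iff_of_nonneg
    (fun i _ => mul_nonneg (hw0 i) (h0 i))).1 hsx
  rw [← convexHull_pair]
  refine mem_convexHull_of_exists_fintype w (fun i => if i = u ∨ i = v then g i else g u)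
    hw0 hw1 ?_ ?_
  · intro i
    by_cases h : i = u ∨ i = v
    · simp only [h, if_true]
      rcases h with h | h
      · left; rw [h]
      · right; rw [h]; rfl
    · simp only [h, if_false]
      left; rfl
  · refine Finset.sum_congr rfl (fun i _ => ?_)
    by_cases h : i = u ∨ i = v
    · simp only [h, if_true]
    · simp only [h, if_false]
      have h1 : w i * s (g i) = 0 := hterm i (Finset.mem_univ i)
      rcases mul_eq_zero.1 h1 with h2 | h2
      · rw [h2]; simp
      · exact absurd (hz i h2) h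

/-! ### Two crossing edges -/

theorem sep (K : Set (Fin 3 → ℝ)) (A B : Fin 3 → ℝ)
    (hE : IsExtreme ℝ K (segment ℝ A B)) (hne : ¬ (A 0 = B 0 ∧ A 1 = B 1))
    (s t : ℝ) (hs0 : 0 < s) (hs1 : s < 1) (ht0 : 0 < t) (ht1 : t < 1)
    (p q : Fin 3 → ℝ) (hp : p ∈ K) (hq : q ∈ K)
    (hp0 : p 0 = (1 - s) * A 0 + s * B 0) (hp1 : p 1 = (1 - s) * A 1 + s * B 1)
    (hq0 : q 0 = (1 - t) * A 0 + t * B 0) (hq1 : q 1 = (1 - t) * A 1 + t * B 1)
    (hp2 : (1 - s) * A 2 + s * B 2 < p 2) (hq2 : q 2 < (1 - t) * A 2 + t * B 2) : False := by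
  set β := p 2 - ((1 - s) * A 2 + s * B 2) with hβ
  set α := ((1 - t) * A 2 + t * B 2) - q 2 with hα
  have hα0 : 0 < α := by rw [hα]; linarith
  have hβ0 : 0 < β := by rw [hβ]; linarith
  have hs : 0 < α + β := by linarith
  -- the point z
  have hz : (α / (α + β)) • p + (β / (α + β)) • q =
      (1 - (α / (α + β) * s + β / (α + β) * t)) • A + (α / (α + β) * s + β / (α + β) * t) • B := by
    have hsum : α / (α + β) + β / (α + β) = 1 := by field_simp
    funext k
    fin_cases k
    · simp only [Pi.add_apply, Pi.smul_apply, smul_eq_mul, Fin.zero_eta, hp0, hq0]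
      have : α / (α + β) = 1 - β / (α + β) := by linarith
      rw [this]; ring
    · simp only [Pi.add_apply, Pi.smul_apply, smul_eq_mul, Fin.mk_one, hp1, hq1]
      have : α / (α + β) = 1 - β / (α + β) := by linarith
      rw [this]; ring
    · simp only [Pi.add_apply, Pi.smul_apply, smul_eq_mul, Fin.reduceFinMk]
      have e1 : p 2 = β + ((1 - s) * A 2 + s * B 2) := by rw [hβ]; ring
      have e2 : q 2 = ((1 - t) * A 2 + t * B 2) - α := by rw [hα]; ring
      rw [e1, e2]
      field_simp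
      ring
  have hzmem : (α / (α + β)) • p + (β / (α + β)) • q ∈ segment ℝ A B := by
    rw [hz]
    refine ⟨_, _, ?_, ?_, by ring, rfl⟩
    · have h1 : α / (α + β) * s ≤ α / (α + β) * 1 := by
        apply mul_le_mul_of_nonneg_left hs1.le; positivity
      have h2 : β / (α + β) * t ≤ β / (α + β) * 1 := by
        apply mul_le_mul_of_nonneg_left ht1.le; positivity
      have hsum : α / (α + β) + β / (α + β) = 1 := by field_simp
      linarith
    · positivity
  have hpseg : p ∈ segment ℝ A B :=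
    hE.left_mem_of_mem_openSegment hp hq hzmem
      ⟨α / (α + β), β / (α + β), by positivity, by positivity, by field_simp, rfl⟩
  obtain ⟨a, b, ha, hb, hab, he⟩ := hpseg
  have ha' : a = 1 - b := by linarith
  subst ha'
  have e0 := congrFun he 0
  have e1 := congrFun he 1
  have e2 := congrFun he 2
  simp only [Pi.add_apply, Pi.smul_apply, smul_eq_mul] at e0 e1 e2
  rw [hp0] at e0
  rw [hp1] at e1
  have f0 : (b - s) * (B 0 - A 0) = 0 := by linarith
  have f1 : (b - s) * (B 1 - A 1) = 0 := by linarith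
  by_cases hbs : b - s = 0
  · have : b = s := by linarith
    subst this
    linarith
  · have g0 : B 0 - A 0 = 0 := by
      rcases mul_eq_zero.1 f0 with h | h
      · exact absurd h hbs
      · exact h
    have g1 : B 1 - A 1 = 0 := by
      rcases mul_eq_zero.1 f1 with h | h
      · exact absurd h hbs
      · exact h
    exact hne ⟨by linarith, by linarith⟩

theorem side (f : Fin 6 → (Fin 3 → ℝ)) (hinj : Function.Injective f)
    (hext : ∀ w, f w ∈ Set.extremePoints ℝ (convexHull ℝ (Set.range f)))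
    (a b : Fin 6)
    (hE : IsExtreme ℝ (convexHull ℝ (Set.range f)) (segment ℝ (f a) (f b)))
    (hne : ¬ (f a 0 = f b 0 ∧ f a 1 = f b 1))
    (c d c' d' : Fin 6) (hca : c ≠ a) (hcb : c ≠ b) (hca' : c' ≠ a) (hcb' : c' ≠ b)
    (s t u r : ℝ) (hs0 : 0 < s) (hs1 : s < 1) (ht0 : 0 < t) (ht1 : t < 1)
    (hu0 : 0 < u) (hu1 : u < 1) (hr0 : 0 < r) (hr1 : r < 1)
    (h0 : (1 - u) * f c 0 + u * f d 0 = (1 - s) * f a 0 + s * f b 0)
    (h1 : (1 - u) * f c 1 + u * f d 1 = (1 - s) * f a 1 + s * f b 1)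
    (h0' : (1 - r) * f c' 0 + r * f d' 0 = (1 - t) * f a 0 + t * f b 0)
    (h1' : (1 - r) * f c' 1 + r * f d' 1 = (1 - t) * f a 1 + t * f b 1) :
    0 < (((1 - u) * f c 2 + u * f d 2) - ((1 - s) * f a 2 + s * f b 2)) *
      (((1 - r) * f c' 2 + r * f d' 2) - ((1 - t) * f a 2 + t * f b 2)) := by
  have hmem : ∀ i, f i ∈ convexHull ℝ (Set.range f) := fun i => subset_convexHull ℝ _ ⟨i, rfl⟩
  have hconv := convex_convexHull ℝ (Set.range f)
  -- strictness
  have key : ∀ (c d : Fin 6) (s u : ℝ), c ≠ a → c ≠ b → 0 < s → s < 1 → 0 < u → u < 1 →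
      (1 - u) * f c 0 + u * f d 0 = (1 - s) * f a 0 + s * f b 0 →
      (1 - u) * f c 1 + u * f d 1 = (1 - s) * f a 1 + s * f b 1 →
      ((1 - u) * f c 2 + u * f d 2) ≠ ((1 - s) * f a 2 + s * f b 2) := by
    intro c d s u hca hcb hs0 hs1 hu0 hu1 h0 h1 h2
    have heq : (1 - s) • f a + s • f b = (1 - u) • f c + u • f d := by
      funext k
      fin_cases k
      · simpa using h0.symm
      · simpa using h1.symm
      · simpa using h2.symm
    have hz : (1 - s) • f a + s • f b ∈ segment ℝ (f a) (f b) :=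
      ⟨1 - s, s, by linarith, hs0.le, by ring, rfl⟩
    have hz' : (1 - s) • f a + s • f b ∈ openSegment ℝ (f c) (f d) := by
      rw [heq]
      exact ⟨1 - u, u, by linarith, hu0, by ring, rfl⟩
    have hc := hE.left_mem_of_mem_openSegment (hmem c) (hmem d) hz hz'
    rcases (mem_extremePoints_iff_forall_segment.1 (hext c)).2 _ (hmem a) _ (hmem b) hc with h | h
    · exact hca (hinj h).symm
    · exact hcb (hinj h).symm
  have hpK : ∀ (c d : Fin 6) (u : ℝ), 0 < u → u < 1 →
      (1 - u) • f c + u • f d ∈ convexHull ℝ (Set.range f) := by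
    intro c d u hu0 hu1
    exact hconv (hmem c) (hmem d) (by linarith) hu0.le (by ring)
  have k1 := key c d s u hca hcb hs0 hs1 hu0 hu1 h0 h1
  have k2 := key c' d' t r hca' hcb' ht0 ht1 hr0 hr1 h0' h1'
  rcases lt_or_gt_of_ne k1 with l1 | l1 <;> rcases lt_or_gt_of_ne k2 with l2 | l2
  · exact mul_pos_of_neg_of_neg (by linarith) (by linarith)
  · exfalso
    refine sep _ _ _ hE hne t s ht0 ht1 hs0 hs1 _ _ (hpK c' d' r hr0 hr1) (hpK c d u hu0 hu1)
      ?_ ?_ ?_ ?_ ?_ ?_
    · simpa using h0'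
    · simpa using h1'
    · simpa using h0
    · simpa using h1
    · simpa using l2
    · simpa using l1
  · exfalso
    refine sep _ _ _ hE hne s t hs0 hs1 ht0 ht1 _ _ (hpK c d u hu0 hu1) (hpK c' d' r hr0 hr1)
      ?_ ?_ ?_ ?_ ?_ ?_
    · simpa using h0
    · simpa using h1
    · simpa using h0'
    · simpa using h1'
    · simpa using l1
    · simpa using l2
  · exact mul_pos (by linarith) (by linarith)

end Pool.Agent.W514.Shadow
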