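import Pool.Agent.W514.Shadow

set_option autoImplicit false

namespace Pool.Agent.W514.Shadow

open Set

/-- non-edges: {1,4}, {1,5}, {2,4} -/
def non (i j : Fin 6) : Prop :=
  (i = 1 ∧ j = 4) ∨ (i = 4 ∧ j = 1) ∨ (i = 1 ∧ j = 5) ∨ (i = 5 ∧ j = 1) ∨ (i = 2 ∧ j = 4) ∨
    (i = 4 ∧ j = 2)

instance (i j : Fin 6) : Decidable (non i j) := by unfold non; infer_instance

/-- The doubly stacked tetrahedron graph. -/
def G : SimpleGraph (Fin 6) where
  Adj i j := i ≠ j ∧ ¬ non i j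
  symm := by
    constructor
    intro i j h
    revert h
    revert i j
    decide
  loopless := ⟨fun i h => h.1 rfl⟩

instance : DecidableRel G.Adj := fun i j => by unfold G; infer_instance

/-- A realisation. -/
def g : Fin 6 → (Fin 3 → ℝ) :=
  ![![0, 0, 0], ![2, 2, -1], ![0, 8, 0], ![8, 0, 0], ![2, -1, 2], ![0, 0, 8]]

theorem all6 {p : Fin 6 → Prop} (h0 : p 0) (h1 : p 1) (h2 : p 2) (h3 : p 3) (h4 : p 4)
    (h5 : p 5) : ∀ i, p i := by
  intro i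
  fin_cases i
  exacts [h0, h1, h2, h3, h4, h5]

theorem g00 : g 0 0 = 0 := rfl
theorem g01 : g 0 1 = 0 := rfl
theorem g02 : g 0 2 = 0 := rfl
theorem g10 : g 1 0 = 2 := rfl
theorem g11 : g 1 1 = 2 := rfl
theorem g12 : g 1 2 = -1 := rfl
theorem g20 : g 2 0 = 0 := rfl
theorem g21 : g 2 1 = 8 := rfl
theorem g22 : g 2 2 = 0 := rfl
theorem g30 : g 3 0 = 8 := rfl
theorem g31 : g 3 1 = 0 := rfl
theorem g32 : g 3 2 = 0 := rfl
theorem g40 : g 4 0 = 2 := rfl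
theorem g41 : g 4 1 = -1 := rfl
theorem g42 : g 4 2 = 2 := rfl
theorem g50 : g 5 0 = 0 := rfl
theorem g51 : g 5 1 = 0 := rfl
theorem g52 : g 5 2 = 8 := rfl

theorem g_inj : Function.Injective g := by
  intro i j
  revert j
  revert i
  refine all6 ?_ ?_ ?_ ?_ ?_ ?_ <;> refine all6 ?_ ?_ ?_ ?_ ?_ ?_ <;> intro h <;>
    first
    | rfl
    | (exfalso
       have h0 := congrFun h 0
       have h1 := congrFun h 1
       have h2 := congrFun h 2
       simp only [g00, g01, g02, g10, g11, g12, g20, g21, g22, g30, g31,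
        g32, g40, g41, g42, g50, g51, g52] at h0 h1 h2
       linarith)

theorem expo' (a b c δ : ℝ) (u v : Fin 6)
    (h0 : ∀ i, 0 ≤ a * g i 0 + b * g i 1 + c * g i 2 + δ)
    (hz : ∀ i, a * g i 0 + b * g i 1 + c * g i 2 + δ = 0 → i = u ∨ i = v)
    (hu : a * g u 0 + b * g u 1 + c * g u 2 + δ = 0)
    (hv : a * g v 0 + b * g v 1 + c * g v 2 + δ = 0) :
    IsExtreme ℝ (convexHull ℝ (Set.range g)) (segment ℝ (g u) (g v)) :=
  expo g ![a, b, c] δ u v h0 hz hu hv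

-- facets: F013: y+2z >= 0; F034: 2y+z>=0; F012: x+2z>=0; F123: 8-x-y+4z>=0; F045: x+2y>=0;
-- F345: 8-x+4y-z>=0; F025: x>=0; F235: 8-x-y-z>=0
theorem e01 : IsExtreme ℝ (convexHull ℝ (Set.range g)) (segment ℝ (g 0) (g 1)) := by
  refine expo' 1 1 4 0 0 1 (all6 ?_ ?_ ?_ ?_ ?_ ?_) (all6 ?_ ?_ ?_ ?_ ?_ ?_) ?_ ?_ <;>
    norm_num [g00, g01, g02, g10, g11, g12, g20, g21, g22, g30, g31,
      g32, g40, g41, g42, g50, g51, g52]
theorem e02 : IsExtreme ℝ (convexHull ℝ (Set.range g)) (segment ℝ (g 0) (g 2)) := by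
  refine expo' 2 0 2 0 0 2 (all6 ?_ ?_ ?_ ?_ ?_ ?_) (all6 ?_ ?_ ?_ ?_ ?_ ?_) ?_ ?_ <;>
    norm_num [g00, g01, g02, g10, g11, g12, g20, g21, g22, g30, g31,
      g32, g40, g41, g42, g50, g51, g52]
theorem e03 : IsExtreme ℝ (convexHull ℝ (Set.range g)) (segment ℝ (g 0) (g 3)) := by
  refine expo' 0 3 3 0 0 3 (all6 ?_ ?_ ?_ ?_ ?_ ?_) (all6 ?_ ?_ ?_ ?_ ?_ ?_) ?_ ?_ <;>
    norm_num [g00, g01, g02, g10, g11, g12, g20, g21, g22, g30, g31,
      g32, g40, g41, g42, g50, g51, g52]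
theorem e04 : IsExtreme ℝ (convexHull ℝ (Set.range g)) (segment ℝ (g 0) (g 4)) := by
  refine expo' 1 4 1 0 0 4 (all6 ?_ ?_ ?_ ?_ ?_ ?_) (all6 ?_ ?_ ?_ ?_ ?_ ?_) ?_ ?_ <;>
    norm_num [g00, g01, g02, g10, g11, g12, g20, g21, g22, g30, g31,
      g32, g40, g41, g42, g50, g51, g52]
theorem e05 : IsExtreme ℝ (convexHull ℝ (Set.range g)) (segment ℝ (g 0) (g 5)) := by
  refine expo' 2 2 0 0 0 5 (all6 ?_ ?_ ?_ ?_ ?_ ?_) (all6 ?_ ?_ ?_ ?_ ?_ ?_) ?_ ?_ <;>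
    norm_num [g00, g01, g02, g10, g11, g12, g20, g21, g22, g30, g31,
      g32, g40, g41, g42, g50, g51, g52]
theorem e12 : IsExtreme ℝ (convexHull ℝ (Set.range g)) (segment ℝ (g 1) (g 2)) := by
  refine expo' 0 (-1) 6 8 1 2 (all6 ?_ ?_ ?_ ?_ ?_ ?_) (all6 ?_ ?_ ?_ ?_ ?_ ?_) ?_ ?_ <;>
    norm_num [g00, g01, g02, g10, g11, g12, g20, g21, g22, g30, g31,
      g32, g40, g41, g42, g50, g51, g52]
theorem e13 : IsExtreme ℝ (convexHull ℝ (Set.range g)) (segment ℝ (g 1) (g 3)) := by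
  refine expo' (-1) 0 6 8 1 3 (all6 ?_ ?_ ?_ ?_ ?_ ?_) (all6 ?_ ?_ ?_ ?_ ?_ ?_) ?_ ?_ <;>
    norm_num [g00, g01, g02, g10, g11, g12, g20, g21, g22, g30, g31,
      g32, g40, g41, g42, g50, g51, g52]
theorem e23 : IsExtreme ℝ (convexHull ℝ (Set.range g)) (segment ℝ (g 2) (g 3)) := by
  refine expo' (-2) (-2) 3 16 2 3 (all6 ?_ ?_ ?_ ?_ ?_ ?_) (all6 ?_ ?_ ?_ ?_ ?_ ?_) ?_ ?_ <;>
    norm_num [g00, g01, g02, g10, g11, g12, g20, g21, g22, g30, g31,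
      g32, g40, g41, g42, g50, g51, g52]
theorem e25 : IsExtreme ℝ (convexHull ℝ (Set.range g)) (segment ℝ (g 2) (g 5)) := by
  refine expo' 0 (-1) (-1) 8 2 5 (all6 ?_ ?_ ?_ ?_ ?_ ?_) (all6 ?_ ?_ ?_ ?_ ?_ ?_) ?_ ?_ <;>
    norm_num [g00, g01, g02, g10, g11, g12, g20, g21, g22, g30, g31,
      g32, g40, g41, g42, g50, g51, g52]
theorem e34 : IsExtreme ℝ (convexHull ℝ (Set.range g)) (segment ℝ (g 3) (g 4)) := by
  refine expo' (-1) 6 0 8 3 4 (all6 ?_ ?_ ?_ ?_ ?_ ?_) (all6 ?_ ?_ ?_ ?_ ?_ ?_) ?_ ?_ <;>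
    norm_num [g00, g01, g02, g10, g11, g12, g20, g21, g22, g30, g31,
      g32, g40, g41, g42, g50, g51, g52]
theorem e35 : IsExtreme ℝ (convexHull ℝ (Set.range g)) (segment ℝ (g 3) (g 5)) := by
  refine expo' (-2) 3 (-2) 16 3 5 (all6 ?_ ?_ ?_ ?_ ?_ ?_) (all6 ?_ ?_ ?_ ?_ ?_ ?_) ?_ ?_ <;>
    norm_num [g00, g01, g02, g10, g11, g12, g20, g21, g22, g30, g31,
      g32, g40, g41, g42, g50, g51, g52]
theorem e45 : IsExtreme ℝ (convexHull ℝ (Set.range g)) (segment ℝ (g 4) (g 5)) := by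
  refine expo' 0 6 (-1) 8 4 5 (all6 ?_ ?_ ?_ ?_ ?_ ?_) (all6 ?_ ?_ ?_ ?_ ?_ ?_) ?_ ?_ <;>
    norm_num [g00, g01, g02, g10, g11, g12, g20, g21, g22, g30, g31,
      g32, g40, g41, g42, g50, g51, g52]

theorem x0 : IsExtreme ℝ (convexHull ℝ (Set.range g)) (segment ℝ (g 0) (g 0)) := by
  refine expo' 3 3 3 0 0 0 (all6 ?_ ?_ ?_ ?_ ?_ ?_) (all6 ?_ ?_ ?_ ?_ ?_ ?_) ?_ ?_ <;>
    norm_num [g00, g01, g02, g10, g11, g12, g20, g21, g22, g30, g31,
      g32, g40, g41, g42, g50, g51, g52]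
theorem x1 : IsExtreme ℝ (convexHull ℝ (Set.range g)) (segment ℝ (g 1) (g 1)) := by
  refine expo' 0 0 8 8 1 1 (all6 ?_ ?_ ?_ ?_ ?_ ?_) (all6 ?_ ?_ ?_ ?_ ?_ ?_) ?_ ?_ <;>
    norm_num [g00, g01, g02, g10, g11, g12, g20, g21, g22, g30, g31,
      g32, g40, g41, g42, g50, g51, g52]
theorem x2 : IsExtreme ℝ (convexHull ℝ (Set.range g)) (segment ℝ (g 2) (g 2)) := by
  refine expo' 0 (-1) 1 8 2 2 (all6 ?_ ?_ ?_ ?_ ?_ ?_) (all6 ?_ ?_ ?_ ?_ ?_ ?_) ?_ ?_ <;>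
    norm_num [g00, g01, g02, g10, g11, g12, g20, g21, g22, g30, g31,
      g32, g40, g41, g42, g50, g51, g52]
theorem x3 : IsExtreme ℝ (convexHull ℝ (Set.range g)) (segment ℝ (g 3) (g 3)) := by
  refine expo' (-1) 0 0 8 3 3 (all6 ?_ ?_ ?_ ?_ ?_ ?_) (all6 ?_ ?_ ?_ ?_ ?_ ?_) ?_ ?_ <;>
    norm_num [g00, g01, g02, g10, g11, g12, g20, g21, g22, g30, g31,
      g32, g40, g41, g42, g50, g51, g52]
theorem x4 : IsExtreme ℝ (convexHull ℝ (Set.range g)) (segment ℝ (g 4) (g 4)) := by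
  refine expo' 0 8 0 8 4 4 (all6 ?_ ?_ ?_ ?_ ?_ ?_) (all6 ?_ ?_ ?_ ?_ ?_ ?_) ?_ ?_ <;>
    norm_num [g00, g01, g02, g10, g11, g12, g20, g21, g22, g30, g31,
      g32, g40, g41, g42, g50, g51, g52]
theorem x5 : IsExtreme ℝ (convexHull ℝ (Set.range g)) (segment ℝ (g 5) (g 5)) := by
  refine expo' 0 0 (-1) 8 5 5 (all6 ?_ ?_ ?_ ?_ ?_ ?_) (all6 ?_ ?_ ?_ ?_ ?_ ?_) ?_ ?_ <;>
    norm_num [g00, g01, g02, g10, g11, g12, g20, g21, g22, g30, g31,
      g32, g40, g41, g42, g50, g51, g52]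

theorem g_ext (v : Fin 6) : g v ∈ Set.extremePoints ℝ (convexHull ℝ (Set.range g)) := by
  have h : IsExtreme ℝ (convexHull ℝ (Set.range g)) (segment ℝ (g v) (g v)) := by
    revert v
    exact all6 x0 x1 x2 x3 x4 x5
  rw [segment_same] at h
  exact isExtreme_singleton.1 h

/-- a convex combination of the points -/
theorem g_mem (x : Fin 3 → ℝ) (w : Fin 6 → ℝ) (h0 : ∀ i, 0 ≤ w i) (h1 : ∑ i, w i = 1)
    (hx : ∑ i, w i • g i = x) : x ∈ convexHull ℝ (Set.range g) :=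
  (mem_hull g).2 ⟨w, h0, h1, hx⟩

theorem g_mem' (x y z : ℝ) (hx : 0 ≤ x) (hy : 0 ≤ y) (hz : 0 ≤ z) (h : x + y + z ≤ 8) :
    ![x, y, z] ∈ convexHull ℝ (Set.range g) := by
  refine g_mem _ ![1 - (x + y + z) / 8, 0, y / 8, x / 8, 0, z / 8] (all6 ?_ ?_ ?_ ?_ ?_ ?_) ?_ ?_
  · show 0 ≤ 1 - (x + y + z) / 8
    linarith
  · show (0 : ℝ) ≤ 0
    exact le_refl _
  · show 0 ≤ y / 8
    linarith
  · show 0 ≤ x / 8
    linarith
  · show (0 : ℝ) ≤ 0
    exact le_refl _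
  · show 0 ≤ z / 8
    linarith
  · simp only [Fin.sum_univ_six]
    show 1 - (x + y + z) / 8 + 0 + y / 8 + x / 8 + 0 + z / 8 = 1
    ring
  · simp only [Fin.sum_univ_six]
    funext k
    fin_cases k
    · show (1 - (x + y + z) / 8) * g 0 0 + 0 * g 1 0 + (y / 8) * g 2 0 + (x / 8) * g 3 0 +
        0 * g 4 0 + z / 8 * g 5 0 = x
      rw [g00, g10, g20, g30, g40, g50]
      ring
    · show (1 - (x + y + z) / 8) * g 0 1 + 0 * g 1 1 + (y / 8) * g 2 1 + (x / 8) * g 3 1 +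
        0 * g 4 1 + z / 8 * g 5 1 = y
      rw [g01, g11, g21, g31, g41, g51]
      ring
    · show (1 - (x + y + z) / 8) * g 0 2 + 0 * g 1 2 + (y / 8) * g 2 2 + (x / 8) * g 3 2 +
        0 * g 4 2 + z / 8 * g 5 2 = z
      rw [g02, g12, g22, g32, g42, g52]
      ring

/-- Not extreme. -/
theorem nonext (u v : Fin 6) (t x y z : ℝ) (ht0 : 0 ≤ t) (ht1 : t ≤ 1)
    (hx0 : 0 ≤ x) (hy0 : 0 ≤ y) (hz0 : 0 ≤ z) (hs : x + y + z ≤ 8)
    (h0 : (1 - t) * g u 0 + t * g v 0 = x / 2)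
    (h1 : (1 - t) * g u 1 + t * g v 1 = y / 2)
    (h2 : (1 - t) * g u 2 + t * g v 2 = z / 2)
    (hnot : ∀ a b : ℝ, 0 ≤ a → 0 ≤ b → a + b = 1 → a * g u 0 + b * g v 0 = 0 →
      a * g u 1 + b * g v 1 = 0 → a * g u 2 + b * g v 2 = 0 → False) :
    ¬ IsExtreme ℝ (convexHull ℝ (Set.range g)) (segment ℝ (g u) (g v)) := by
  intro hE
  have hz : (1 - t) • g u + t • g v ∈ segment ℝ (g u) (g v) :=
    ⟨1 - t, t, by linarith, ht0, by ring, rfl⟩
  have hz' : (1 - t) • g u + t • g v ∈ openSegment ℝ (g 0) ![x, y, z] := by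
    refine ⟨1 / 2, 1 / 2, by norm_num, by norm_num, by norm_num, ?_⟩
    funext k
    fin_cases k
    · show 1 / 2 * g 0 0 + 1 / 2 * x = (1 - t) * g u 0 + t * g v 0
      rw [h0, g00]; ring
    · show 1 / 2 * g 0 1 + 1 / 2 * y = (1 - t) * g u 1 + t * g v 1
      rw [h1, g01]; ring
    · show 1 / 2 * g 0 2 + 1 / 2 * z = (1 - t) * g u 2 + t * g v 2
      rw [h2, g02]; ring
  have h := hE.left_mem_of_mem_openSegment (subset_convexHull ℝ _ ⟨0, rfl⟩)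
    (g_mem' x y z hx0 hy0 hz0 hs) hz hz'
  obtain ⟨a, b, ha, hb, hab, he⟩ := h
  have e0 := congrFun he 0
  have e1 := congrFun he 1
  have e2 := congrFun he 2
  simp only [Pi.add_apply, Pi.smul_apply, smul_eq_mul, g00, g01, g02] at e0 e1 e2
  exact hnot a b ha hb hab e0 e1 e2

theorem n14 : ¬ IsExtreme ℝ (convexHull ℝ (Set.range g)) (segment ℝ (g 1) (g 4)) := by
  refine nonext 1 4 (1/2) 4 1 1 (by norm_num) (by norm_num) (by norm_num) (by norm_num)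
    (by norm_num) (by norm_num) ?_ ?_ ?_ ?_
  · norm_num [g00, g01, g02, g10, g11, g12, g20, g21, g22, g30, g31,
      g32, g40, g41, g42, g50, g51, g52]
  · norm_num [g00, g01, g02, g10, g11, g12, g20, g21, g22, g30, g31,
      g32, g40, g41, g42, g50, g51, g52]
  · norm_num [g00, g01, g02, g10, g11, g12, g20, g21, g22, g30, g31,
      g32, g40, g41, g42, g50, g51, g52]
  · intro a b ha hb hab e0 e1 e2
    rw [g10, g40] at e0
    linarith

theorem n15 : ¬ IsExtreme ℝ (convexHull ℝ (Set.range g)) (segment ℝ (g 1) (g 5)) := by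
  refine nonext 1 5 (1/6) (10/3) (10/3) 1 (by norm_num) (by norm_num) (by norm_num) (by norm_num)
    (by norm_num) (by norm_num) ?_ ?_ ?_ ?_
  · norm_num [g00, g01, g02, g10, g11, g12, g20, g21, g22, g30, g31,
      g32, g40, g41, g42, g50, g51, g52]
  · norm_num [g00, g01, g02, g10, g11, g12, g20, g21, g22, g30, g31,
      g32, g40, g41, g42, g50, g51, g52]
  · norm_num [g00, g01, g02, g10, g11, g12, g20, g21, g22, g30, g31,
      g32, g40, g41, g42, g50, g51, g52]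
  · intro a b ha hb hab e0 e1 e2
    rw [g10, g50] at e0
    rw [g12, g52] at e2
    linarith

theorem n24 : ¬ IsExtreme ℝ (convexHull ℝ (Set.range g)) (segment ℝ (g 2) (g 4)) := by
  refine nonext 2 4 (5/6) (10/3) 1 (10/3) (by norm_num) (by norm_num) (by norm_num) (by norm_num)
    (by norm_num) (by norm_num) ?_ ?_ ?_ ?_
  · norm_num [g00, g01, g02, g10, g11, g12, g20, g21, g22, g30, g31,
      g32, g40, g41, g42, g50, g51, g52]
  · norm_num [g00, g01, g02, g10, g11, g12, g20, g21, g22, g30, g31,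
      g32, g40, g41, g42, g50, g51, g52]
  · norm_num [g00, g01, g02, g10, g11, g12, g20, g21, g22, g30, g31,
      g32, g40, g41, g42, g50, g51, g52]
  · intro a b ha hb hab e0 e1 e2
    rw [g20, g40] at e0
    rw [g21, g41] at e1
    linarith

theorem g_adj : ∀ u v, G.Adj u v ↔
    (u ≠ v ∧ IsExtreme ℝ (convexHull ℝ (Set.range g)) (segment ℝ (g u) (g v))) := by
  have sy : ∀ u v : Fin 6, segment ℝ (g u) (g v) = segment ℝ (g v) (g u) :=
    fun u v => segment_symm ℝ _ _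
  have pos : ∀ u v : Fin 6, G.Adj u v →
      IsExtreme ℝ (convexHull ℝ (Set.range g)) (segment ℝ (g u) (g v)) →
      (G.Adj u v ↔
    (u ≠ v ∧ IsExtreme ℝ (convexHull ℝ (Set.range g)) (segment ℝ (g u) (g v)))) := by
    intro u v h1 h2
    exact ⟨fun h => ⟨h.ne, h2⟩, fun _ => h1⟩
  have neg : ∀ u v : Fin 6, ¬ G.Adj u v →
      ¬ IsExtreme ℝ (convexHull ℝ (Set.range g)) (segment ℝ (g u) (g v)) →
      (G.Adj u v ↔
    (u ≠ v ∧ IsExtreme ℝ (convexHull ℝ (Set.range g)) (segment ℝ (g u) (g v)))) := by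
    intro u v h1 h2
    exact ⟨fun h => absurd h h1, fun h => absurd h.2 h2⟩
  have dg : ∀ u : Fin 6, (G.Adj u u ↔
    (u ≠ u ∧ IsExtreme ℝ (convexHull ℝ (Set.range g)) (segment ℝ (g u) (g u)))) := by
    intro u
    exact ⟨fun h => absurd rfl h.ne, fun h => absurd rfl h.1⟩
  refine all6 (all6 (dg 0) ?_ ?_ ?_ ?_ ?_) (all6 ?_ (dg 1) ?_ ?_ ?_ ?_) (all6 ?_ ?_ (dg 2) ?_ ?_ ?_)
    (all6 ?_ ?_ ?_ (dg 3) ?_ ?_) (all6 ?_ ?_ ?_ ?_ (dg 4) ?_) (all6 ?_ ?_ ?_ ?_ ?_ (dg 5))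
  · exact pos 0 1 (by decide) e01
  · exact pos 0 2 (by decide) e02
  · exact pos 0 3 (by decide) e03
  · exact pos 0 4 (by decide) e04
  · exact pos 0 5 (by decide) e05
  · exact pos 1 0 (by decide) (by rw [sy]; exact e01)
  · exact pos 1 2 (by decide) e12
  · exact pos 1 3 (by decide) e13
  · exact neg 1 4 (by decide) n14
  · exact neg 1 5 (by decide) n15
  · exact pos 2 0 (by decide) (by rw [sy]; exact e02)
  · exact pos 2 1 (by decide) (by rw [sy]; exact e12)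
  · exact pos 2 3 (by decide) e23
  · exact neg 2 4 (by decide) n24
  · exact pos 2 5 (by decide) e25
  · exact pos 3 0 (by decide) (by rw [sy]; exact e03)
  · exact pos 3 1 (by decide) (by rw [sy]; exact e13)
  · exact pos 3 2 (by decide) (by rw [sy]; exact e23)
  · exact pos 3 4 (by decide) e34
  · exact pos 3 5 (by decide) e35
  · exact pos 4 0 (by decide) (by rw [sy]; exact e04)
  · exact neg 4 1 (by decide) (by rw [sy]; exact n14)
  · exact neg 4 2 (by decide) (by rw [sy]; exact n24)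
  · exact pos 4 3 (by decide) (by rw [sy]; exact e34)
  · exact pos 4 5 (by decide) e45
  · exact pos 5 0 (by decide) (by rw [sy]; exact e05)
  · exact neg 5 1 (by decide) (by rw [sy]; exact n15)
  · exact pos 5 2 (by decide) (by rw [sy]; exact e25)
  · exact pos 5 3 (by decide) (by rw [sy]; exact e35)
  · exact pos 5 4 (by decide) (by rw [sy]; exact e45)

theorem g_int : (interior (convexHull ℝ (Set.range g))).Nonempty := by
  refine ⟨![1, 1, 1], ?_⟩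
  rw [mem_interior]
  refine ⟨{x | 0 < x 0 ∧ 0 < x 1 ∧ 0 < x 2 ∧ x 0 + x 1 + x 2 < 8}, ?_, ?_, ?_⟩
  · rintro x ⟨h0, h1, h2, h3⟩
    have := g_mem' (x 0) (x 1) (x 2) h0.le h1.le h2.le h3.le
    have e : ![x 0, x 1, x 2] = x := by
      funext k
      fin_cases k <;> rfl
    rwa [e] at this
  · have c0 : Continuous fun x : Fin 3 → ℝ => x 0 := continuous_apply 0
    have c1 : Continuous fun x : Fin 3 → ℝ => x 1 := continuous_apply 1
    have c2 : Continuous fun x : Fin 3 → ℝ => x 2 := continuous_apply 2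
    exact (isOpen_lt continuous_const c0).inter ((isOpen_lt continuous_const c1).inter
      ((isOpen_lt continuous_const c2).inter
        (isOpen_lt ((c0.add c1).add c2) continuous_const)))
  · refine ⟨?_, ?_, ?_, ?_⟩ <;> (simp; try norm_num)

/-- the Hamiltonian circuit -/
def cyc : G.Walk (0 : Fin 6) 0 :=
  .cons (show G.Adj 0 1 by decide) (.cons (show G.Adj 1 2 by decide)
    (.cons (show G.Adj 2 3 by decide) (.cons (show G.Adj 3 4 by decide)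
      (.cons (show G.Adj 4 5 by decide) (.cons (show G.Adj 5 0 by decide) .nil)))))

theorem cyc_isCycle : cyc.IsCycle := by
  rw [SimpleGraph.Walk.isCycle_def]
  refine ⟨?_, ?_, ?_⟩
  · rw [SimpleGraph.Walk.isTrail_def]
    simp only [cyc, SimpleGraph.Walk.edges_cons, SimpleGraph.Walk.edges_nil]
    decide
  · intro h
    cases h
  · simp only [cyc, SimpleGraph.Walk.support_cons, SimpleGraph.Walk.support_nil, List.tail_cons]
    decide

theorem cyc_length : cyc.length = 6 := rfl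

theorem cyc_dart (i : Fin 6) : ∃ d ∈ cyc.darts, d.fst = i ∧ d.snd = i + 1 := by
  revert i
  refine all6 ?_ ?_ ?_ ?_ ?_ ?_
  · exact ⟨⟨(0, 1), by decide⟩, by simp [cyc], rfl, rfl⟩
  · exact ⟨⟨(1, 2), by decide⟩, by simp [cyc], rfl, rfl⟩
  · exact ⟨⟨(2, 3), by decide⟩, by simp [cyc], rfl, rfl⟩
  · exact ⟨⟨(3, 4), by decide⟩, by simp [cyc], rfl, rfl⟩
  · exact ⟨⟨(4, 5), by decide⟩, by simp [cyc], rfl, rfl⟩
  · exact ⟨⟨(5, 0), by decide⟩, by simp [cyc], rfl, rfl⟩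

end Pool.Agent.W514.Shadow
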