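import Pool.Agent.W514.ShadowG

set_option autoImplicit false

namespace Pool.Agent.W514.Shadow

open Set

/-- vertices of an affinely regular hexagon -/
def vT : Fin 6 → (Fin 2 → ℝ) :=
  ![![1, 0], ![1, 1], ![0, 1], ![-1, 0], ![-1, -1], ![0, -1]]

theorem v00 : vT 0 0 = 1 := rfl
theorem v01 : vT 0 1 = 0 := rfl
theorem v10 : vT 1 0 = 1 := rfl
theorem v11 : vT 1 1 = 1 := rfl
theorem v20 : vT 2 0 = 0 := rfl
theorem v21 : vT 2 1 = 1 := rfl
theorem v30 : vT 3 0 = -1 := rfl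
theorem v31 : vT 3 1 = 0 := rfl
theorem v40 : vT 4 0 = -1 := rfl
theorem v41 : vT 4 1 = -1 := rfl
theorem v50 : vT 5 0 = 0 := rfl
theorem v51 : vT 5 1 = -1 := rfl

theorem vT_inj : Function.Injective vT := by
  intro i j
  revert j
  revert i
  refine all6 ?_ ?_ ?_ ?_ ?_ ?_ <;> refine all6 ?_ ?_ ?_ ?_ ?_ ?_ <;> intro h <;>
    first
    | rfl
    | (exfalso
       have h0 := congrFun h 0
       have h1 := congrFun h 1
       simp only [v00, v01, v10, v11, v20, v21, v30, v31, v40, v41, v50, v51] at h0 h1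
       linarith)

/-- The hexagon as an intersection of half planes. -/
def Hex : Set (Fin 2 → ℝ) :=
  {x | x 0 ≤ 1 ∧ -1 ≤ x 0 ∧ x 1 ≤ 1 ∧ -1 ≤ x 1 ∧ x 0 - x 1 ≤ 1 ∧ -1 ≤ x 0 - x 1}

def HexO : Set (Fin 2 → ℝ) :=
  {x | x 0 < 1 ∧ -1 < x 0 ∧ x 1 < 1 ∧ -1 < x 1 ∧ x 0 - x 1 < 1 ∧ -1 < x 0 - x 1}

theorem range_vT : (Set.range vT) ⊆ Hex := by
  rintro _ ⟨i, rfl⟩
  revert i
  refine all6 ?_ ?_ ?_ ?_ ?_ ?_ <;>
    (simp only [Hex, Set.mem_ofPred_eq, v00, v01, v10, v11, v20, v21, v30, v31, v40, v41, v50, v51]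
     norm_num)

theorem convex_Hex : Convex ℝ Hex := by
  intro x hx y hy a b ha hb hab
  simp only [Hex, Set.mem_ofPred_eq, Pi.add_apply, Pi.smul_apply, smul_eq_mul] at hx hy ⊢
  obtain ⟨h1, h2, h3, h4, h5, h6⟩ := hx
  obtain ⟨k1, k2, k3, k4, k5, k6⟩ := hy
  have e : b = 1 - a := by linarith
  subst e
  refine ⟨?_, ?_, ?_, ?_, ?_, ?_⟩ <;> nlinarith

theorem hull_sub : convexHull ℝ (Set.range vT) ⊆ Hex := convexHull_min range_vT convex_Hex

/-- combos -/
theorem v_mem (x : Fin 2 → ℝ) (w : Fin 6 → ℝ) (h0 : ∀ i, 0 ≤ w i) (h1 : ∑ i, w i = 1)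
    (hx : ∑ i, w i • vT i = x) : x ∈ convexHull ℝ (Set.range vT) :=
  (mem_hull vT).2 ⟨w, h0, h1, hx⟩

theorem v_comb (w : Fin 6 → ℝ) (x : Fin 2 → ℝ) (h0 : ∀ i, 0 ≤ w i)
    (h1 : w 0 + w 1 + w 2 + w 3 + w 4 + w 5 = 1)
    (e0 : w 0 + w 1 - w 3 - w 4 = x 0) (e1 : w 1 + w 2 - w 4 - w 5 = x 1) :
    x ∈ convexHull ℝ (Set.range vT) := by
  refine v_mem x w h0 ?_ ?_
  · simp only [Fin.sum_univ_six]; exact h1
  · simp only [Fin.sum_univ_six]
    funext k
    fin_cases k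
    · show w 0 * vT 0 0 + w 1 * vT 1 0 + w 2 * vT 2 0 + w 3 * vT 3 0 + w 4 * vT 4 0
        + w 5 * vT 5 0 = x 0
      rw [v00, v10, v20, v30, v40, v50, ← e0]; ring
    · show w 0 * vT 0 1 + w 1 * vT 1 1 + w 2 * vT 2 1 + w 3 * vT 3 1 + w 4 * vT 4 1
        + w 5 * vT 5 1 = x 1
      rw [v01, v11, v21, v31, v41, v51, ← e1]; ring

theorem sub_hull : Hex ⊆ convexHull ℝ (Set.range vT) := by
  intro x hx
  simp only [Hex, Set.mem_ofPred_eq] at hx
  obtain ⟨h1, h2, h3, h4, h5, h6⟩ := hx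
  set X := x 0 with hX
  set Y := x 1 with hY
  -- six sectors; rest is spread over 0 and 3
  rcases le_total 0 X with hx0 | hx0
  · rcases le_total 0 Y with hy0 | hy0
    · rcases le_total Y X with hyx | hyx
      · -- sector v0 v1 : x = (X-Y) v0 + Y v1
        refine v_comb ![(X - Y) + (1 - X) / 2, Y, 0, (1 - X) / 2, 0, 0] x
          (all6 ?_ ?_ ?_ ?_ ?_ ?_) ?_ ?_ ?_
        · show 0 ≤ (X - Y) + (1 - X) / 2; linarith
        · exact hy0
        · exact le_refl _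
        · show 0 ≤ (1 - X) / 2; linarith
        · exact le_refl _
        · exact le_refl _
        · show (X - Y) + (1 - X) / 2 + Y + 0 + (1 - X) / 2 + 0 + 0 = 1; ring
        · show (X - Y) + (1 - X) / 2 + Y - (1 - X) / 2 - 0 = x 0; rw [← hX]; ring
        · show Y + 0 - 0 - 0 = x 1; rw [← hY]; ring
      · -- sector v1 v2 : x = X v1 + (Y - X) v2
        refine v_comb ![(1 - Y) / 2, X, Y - X, (1 - Y) / 2, 0, 0] x
          (all6 ?_ ?_ ?_ ?_ ?_ ?_) ?_ ?_ ?_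
        · show 0 ≤ (1 - Y) / 2; linarith
        · exact hx0
        · show 0 ≤ Y - X; linarith
        · show 0 ≤ (1 - Y) / 2; linarith
        · exact le_refl _
        · exact le_refl _
        · show (1 - Y) / 2 + X + (Y - X) + (1 - Y) / 2 + 0 + 0 = 1; ring
        · show (1 - Y) / 2 + X - (1 - Y) / 2 - 0 = x 0; rw [← hX]; ring
        · show X + (Y - X) - 0 - 0 = x 1; rw [← hY]; ring
    · -- sector v5 v0 : x = X v0 + (-Y) v5
      refine v_comb ![X + (1 - X + Y) / 2, 0, 0, (1 - X + Y) / 2, 0, -Y] x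
        (all6 ?_ ?_ ?_ ?_ ?_ ?_) ?_ ?_ ?_
      · show 0 ≤ X + (1 - X + Y) / 2; linarith
      · exact le_refl _
      · exact le_refl _
      · show 0 ≤ (1 - X + Y) / 2; linarith
      · exact le_refl _
      · show 0 ≤ -Y; linarith
      · show X + (1 - X + Y) / 2 + 0 + 0 + (1 - X + Y) / 2 + 0 + -Y = 1; ring
      · show X + (1 - X + Y) / 2 + 0 - (1 - X + Y) / 2 - 0 = x 0; rw [← hX]; ring
      · show 0 + 0 - 0 - -Y = x 1; rw [← hY]; ring
  · rcases le_total 0 Y with hy0 | hy0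
    · -- sector v2 v3 : x = Y v2 + (-X) v3
      refine v_comb ![(1 + X - Y) / 2, 0, Y, -X + (1 + X - Y) / 2, 0, 0] x
        (all6 ?_ ?_ ?_ ?_ ?_ ?_) ?_ ?_ ?_
      · show 0 ≤ (1 + X - Y) / 2; linarith
      · exact le_refl _
      · exact hy0
      · show 0 ≤ -X + (1 + X - Y) / 2; linarith
      · exact le_refl _
      · exact le_refl _
      · show (1 + X - Y) / 2 + 0 + Y + (-X + (1 + X - Y) / 2) + 0 + 0 = 1; ring
      · show (1 + X - Y) / 2 + 0 - (-X + (1 + X - Y) / 2) - 0 = x 0; rw [← hX]; ring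
      · show 0 + Y - 0 - 0 = x 1; rw [← hY]; ring
    · rcases le_total Y X with hyx | hyx
      · -- sector v4 v5 : x = (-X) v4 + (X - Y) v5
        refine v_comb ![(1 + Y) / 2, 0, 0, (1 + Y) / 2, -X, X - Y] x
          (all6 ?_ ?_ ?_ ?_ ?_ ?_) ?_ ?_ ?_
        · show 0 ≤ (1 + Y) / 2; linarith
        · exact le_refl _
        · exact le_refl _
        · show 0 ≤ (1 + Y) / 2; linarith
        · show 0 ≤ -X; linarith
        · show 0 ≤ X - Y; linarith
        · show (1 + Y) / 2 + 0 + 0 + (1 + Y) / 2 + -X + (X - Y) = 1; ring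
        · show (1 + Y) / 2 + 0 - (1 + Y) / 2 - -X = x 0; rw [← hX]; ring
        · show 0 + 0 - -X - (X - Y) = x 1; rw [← hY]; ring
      · -- sector v3 v4 : x = (Y - X) v3 + (-Y) v4
        refine v_comb ![(1 + X) / 2, 0, 0, (Y - X) + (1 + X) / 2, -Y, 0] x
          (all6 ?_ ?_ ?_ ?_ ?_ ?_) ?_ ?_ ?_
        · show 0 ≤ (1 + X) / 2; linarith
        · exact le_refl _
        · exact le_refl _
        · show 0 ≤ (Y - X) + (1 + X) / 2; linarith
        · show 0 ≤ -Y; linarith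
        · exact le_refl _
        · show (1 + X) / 2 + 0 + 0 + ((Y - X) + (1 + X) / 2) + -Y + 0 = 1; ring
        · show (1 + X) / 2 + 0 - ((Y - X) + (1 + X) / 2) - -Y = x 0; rw [← hX]; ring
        · show 0 + 0 - -Y - 0 = x 1; rw [← hY]; ring

theorem hull_eq : convexHull ℝ (Set.range vT) = Hex := Subset.antisymm hull_sub sub_hull

theorem HexO_sub : HexO ⊆ interior Hex := by
  have c0 : Continuous fun x : Fin 2 → ℝ => x 0 := continuous_apply 0
  have c1 : Continuous fun x : Fin 2 → ℝ => x 1 := continuous_apply 1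
  have ho : IsOpen HexO :=
    (isOpen_lt c0 continuous_const).inter ((isOpen_lt continuous_const c0).inter
      ((isOpen_lt c1 continuous_const).inter ((isOpen_lt continuous_const c1).inter
        ((isOpen_lt (c0.sub c1) continuous_const).inter
          (isOpen_lt continuous_const (c0.sub c1))))))
  refine interior_maximal ?_ ho
  rintro x ⟨h1, h2, h3, h4, h5, h6⟩
  exact ⟨h1.le, h2.le, h3.le, h4.le, h5.le, h6.le⟩

/-- support functionals -/
def S0 : Fin 6 → ℝ := ![2, 1, -1, -2, -1, 1]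
def S1 : Fin 6 → ℝ := ![-1, 1, 2, 1, -1, -2]

theorem S_le (j : Fin 6) (x : Fin 2 → ℝ) (hx : x ∈ Hex) : S0 j * x 0 + S1 j * x 1 ≤ 2 := by
  obtain ⟨h1, h2, h3, h4, h5, h6⟩ := hx
  revert j
  refine all6 ?_ ?_ ?_ ?_ ?_ ?_
  · show 2 * x 0 + -1 * x 1 ≤ 2; linarith
  · show 1 * x 0 + 1 * x 1 ≤ 2; linarith
  · show -1 * x 0 + 2 * x 1 ≤ 2; linarith
  · show -2 * x 0 + 1 * x 1 ≤ 2; linarith
  · show -1 * x 0 + -1 * x 1 ≤ 2; linarith
  · show 1 * x 0 + -2 * x 1 ≤ 2; linarith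

theorem S_eq (j : Fin 6) (x : Fin 2 → ℝ) (hx : x ∈ Hex) (h : S0 j * x 0 + S1 j * x 1 = 2) :
    x = vT j := by
  obtain ⟨h1, h2, h3, h4, h5, h6⟩ := hx
  have key : ∀ a b : ℝ, vT j = ![a, b] → x 0 = a → x 1 = b → x = vT j := by
    intro a b e e0 e1
    rw [e]
    funext k
    fin_cases k
    · exact e0
    · exact e1
  revert j
  refine all6 ?_ ?_ ?_ ?_ ?_ ?_
  · intro h key
    replace h : 2 * x 0 + -1 * x 1 = 2 := h
    exact key 1 0 rfl (by linarith) (by linarith)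
  · intro h key
    replace h : 1 * x 0 + 1 * x 1 = 2 := h
    exact key 1 1 rfl (by linarith) (by linarith)
  · intro h key
    replace h : -1 * x 0 + 2 * x 1 = 2 := h
    exact key 0 1 rfl (by linarith) (by linarith)
  · intro h key
    replace h : -2 * x 0 + 1 * x 1 = 2 := h
    exact key (-1) 0 rfl (by linarith) (by linarith)
  · intro h key
    replace h : -1 * x 0 + -1 * x 1 = 2 := h
    exact key (-1) (-1) rfl (by linarith) (by linarith)
  · intro h key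
    replace h : 1 * x 0 + -2 * x 1 = 2 := h
    exact key 0 (-1) rfl (by linarith) (by linarith)

theorem S_v (j : Fin 6) : S0 j * vT j 0 + S1 j * vT j 1 = 2 := by
  revert j
  refine all6 ?_ ?_ ?_ ?_ ?_ ?_
  · show (2 : ℝ) * 1 + -1 * 0 = 2; norm_num
  · show (1 : ℝ) * 1 + 1 * 1 = 2; norm_num
  · show (-1 : ℝ) * 0 + 2 * 1 = 2; norm_num
  · show (-2 : ℝ) * -1 + 1 * 0 = 2; norm_num
  · show (-1 : ℝ) * -1 + -1 * -1 = 2; norm_num
  · show (1 : ℝ) * 0 + -2 * -1 = 2; norm_num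

theorem s00 : S0 0 = 2 := rfl
theorem s01 : S0 1 = 1 := rfl
theorem s02 : S0 2 = -1 := rfl
theorem s03 : S0 3 = -2 := rfl
theorem s04 : S0 4 = -1 := rfl
theorem s05 : S0 5 = 1 := rfl
theorem s10 : S1 0 = -1 := rfl
theorem s11 : S1 1 = 1 := rfl
theorem s12 : S1 2 = 2 := rfl
theorem s13 : S1 3 = 1 := rfl
theorem s14 : S1 4 = -1 := rfl
theorem s15 : S1 5 = -2 := rfl

theorem S_v_lt (j i : Fin 6) (h : i ≠ j) : S0 j * vT i 0 + S1 j * vT i 1 ≤ 1 := by
  revert i
  revert j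
  refine all6 ?_ ?_ ?_ ?_ ?_ ?_ <;> refine all6 ?_ ?_ ?_ ?_ ?_ ?_ <;> intro h <;>
    first
    | exact absurd rfl h
    | (simp only [v00, v01, v10, v11, v20, v21, v30, v31, v40, v41, v50, v51]
       norm_num [s00, s01, s02, s03, s04, s05, s10, s11, s12, s13, s14, s15])

theorem not_mem_hull (j : Fin 6) : vT j ∉ convexHull ℝ (Set.range vT \ {vT j}) := by
  intro h
  have hsub : convexHull ℝ (Set.range vT \ {vT j}) ⊆
      {x | S0 j * x 0 + S1 j * x 1 ≤ 1} := by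
    refine convexHull_min ?_ ?_
    · rintro _ ⟨⟨i, rfl⟩, hi⟩
      exact S_v_lt j i (fun e => hi (by rw [e]; rfl))
    · intro x hx y hy a b ha hb hab
      simp only [Set.mem_ofPred_eq, Pi.add_apply, Pi.smul_apply, smul_eq_mul] at hx hy ⊢
      have e : b = 1 - a := by linarith
      subst e
      nlinarith
  have := hsub h
  simp only [Set.mem_ofPred_eq] at this
  rw [S_v j] at this
  norm_num at this

/-- vertices of the hexagon that are not adjacent have midpoint in the interior -/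
theorem mid (a b : Fin 6) (hab : a ≠ b) (h1 : b ≠ a + 1) (h2 : b ≠ a - 1) :
    (fun k => (vT a k + vT b k) / 2) ∈ HexO := by
  revert b
  revert a
  refine all6 ?_ ?_ ?_ ?_ ?_ ?_ <;> refine all6 ?_ ?_ ?_ ?_ ?_ ?_ <;> intro h h1 h2 <;>
    first
    | exact absurd rfl h
    | exact absurd rfl h1
    | exact absurd rfl h2
    | (simp only [HexO, Set.mem_ofPred_eq, v00, v01, v10, v11, v20, v21, v30, v31, v40, v41, v50,
        v51]
       norm_num)

theorem sum_nb (a b c : Fin 6) (hb : b = a + 1 ∨ b = a - 1) (hc : c = a + 1 ∨ c = a - 1)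
    (hbc : b ≠ c) (k : Fin 2) : vT b k + vT c k = vT a k := by
  have main : ∀ a : Fin 6, ∀ k : Fin 2, vT (a + 1) k + vT (a - 1) k = vT a k := by
    refine all6 ?_ ?_ ?_ ?_ ?_ ?_ <;> intro k <;> fin_cases k
    · show vT 1 0 + vT 5 0 = vT 0 0; rw [v10, v50, v00]; norm_num
    · show vT 1 1 + vT 5 1 = vT 0 1; rw [v11, v51, v01]; norm_num
    · show vT 2 0 + vT 0 0 = vT 1 0; rw [v20, v00, v10]; norm_num
    · show vT 2 1 + vT 0 1 = vT 1 1; rw [v21, v01, v11]; norm_num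
    · show vT 3 0 + vT 1 0 = vT 2 0; rw [v30, v10, v20]; norm_num
    · show vT 3 1 + vT 1 1 = vT 2 1; rw [v31, v11, v21]; norm_num
    · show vT 4 0 + vT 2 0 = vT 3 0; rw [v40, v20, v30]; norm_num
    · show vT 4 1 + vT 2 1 = vT 3 1; rw [v41, v21, v31]; norm_num
    · show vT 5 0 + vT 3 0 = vT 4 0; rw [v50, v30, v40]; norm_num
    · show vT 5 1 + vT 3 1 = vT 4 1; rw [v51, v31, v41]; norm_num
    · show vT 0 0 + vT 4 0 = vT 5 0; rw [v00, v40, v50]; norm_num
    · show vT 0 1 + vT 4 1 = vT 5 1; rw [v01, v41, v51]; norm_num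
  rcases hb with rfl | rfl <;> rcases hc with rfl | rfl
  · exact absurd rfl hbc
  · exact main a k
  · rw [add_comm]; exact main a k
  · exact absurd rfl hbc

end Pool.Agent.W514.Shadow
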