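import Pool.Agent.W514.ShadowH

set_option autoImplicit false

namespace Pool.Agent.W514.Shadow

open Set

theorem contra (f : Fin 6 → (Fin 3 → ℝ)) (hinj : Function.Injective f)
    (hext : ∀ w, f w ∈ Set.extremePoints ℝ (convexHull ℝ (Set.range f)))
    (hadj : ∀ u w, G.Adj u w ↔
      (u ≠ w ∧ IsExtreme ℝ (convexHull ℝ (Set.range f)) (segment ℝ (f u) (f w))))
    (himg : (fun p : Fin 3 → ℝ => ![p 0, p 1]) '' convexHull ℝ (Set.range f)
            = convexHull ℝ (Set.range vT))
    (hfr : ((fun p : Fin 3 → ℝ => ![p 0, p 1]) ⁻¹' frontier (convexHull ℝ (Set.range vT)))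
              ∩ convexHull ℝ (Set.range f)
            = ⋃ d ∈ cyc.darts, segment ℝ (f d.fst) (f d.snd)) : False := by
  rw [hull_eq] at himg hfr
  have hmem : ∀ i, f i ∈ convexHull ℝ (Set.range f) := fun i => subset_convexHull ℝ _ ⟨i, rfl⟩
  have hHex : ∀ i, ![f i 0, f i 1] ∈ Hex := by
    intro i
    rw [← himg]
    exact ⟨f i, hmem i, rfl⟩
  -- every hexagon vertex is attained
  have hatt : ∀ j, ∃ i, ![f i 0, f i 1] = vT j := by
    intro j
    have hj : vT j ∈ (fun p : Fin 3 → ℝ => ![p 0, p 1]) '' convexHull ℝ (Set.range f) := by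
      rw [himg]; exact range_vT ⟨j, rfl⟩
    obtain ⟨p, hp, hpj⟩ := hj
    obtain ⟨w, hw0, hw1, rfl⟩ := (mem_hull f).1 hp
    have e0 : ∑ i, w i * f i 0 = vT j 0 := by
      rw [← hpj]
      show _ = (∑ i, w i • f i) 0
      rw [Finset.sum_apply]; rfl
    have e1 : ∑ i, w i * f i 1 = vT j 1 := by
      rw [← hpj]
      show _ = (∑ i, w i • f i) 1
      rw [Finset.sum_apply]; rfl
    have hsum : ∑ i, w i * (2 - (S0 j * f i 0 + S1 j * f i 1)) = 0 := by
      have h1 : ∑ i, w i * (2 - (S0 j * f i 0 + S1 j * f i 1)) =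
          2 * ∑ i, w i - (S0 j * ∑ i, w i * f i 0 + S1 j * ∑ i, w i * f i 1) := by
        rw [Finset.mul_sum, Finset.mul_sum, Finset.mul_sum, ← Finset.sum_add_distrib,
          ← Finset.sum_sub_distrib]
        exact Finset.sum_congr rfl (fun i _ => by ring)
      rw [h1, hw1, e0, e1, S_v j]
      norm_num
    have hnn : ∀ i ∈ Finset.univ, 0 ≤ w i * (2 - (S0 j * f i 0 + S1 j * f i 1)) := by
      intro i _
      have := S_le j _ (hHex i)
      simp only [Matrix.cons_val_zero, Matrix.cons_val_one] at this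
      exact mul_nonneg (hw0 i) (by linarith)
    have hz := (Finset.sum_eq_zero_iff_of_nonneg hnn).1 hsum
    have hex : ∃ i, w i ≠ 0 := by
      by_contra hcon
      push Not at hcon
      rw [Finset.sum_congr rfl (fun i _ => hcon i)] at hw1
      simp at hw1
    obtain ⟨i, hi⟩ := hex
    refine ⟨i, S_eq j _ (hHex i) ?_⟩
    have := hz i (Finset.mem_univ i)
    rcases mul_eq_zero.1 this with h | h
    · exact absurd h hi
    · simp only [Matrix.cons_val_zero, Matrix.cons_val_one]
      linarith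
  choose τ hτ using hatt
  have hτinj : Function.Injective τ := by
    intro j j' h
    apply vT_inj
    rw [← hτ j, ← hτ j', h]
  have hτsurj : Function.Surjective τ := Finite.injective_iff_surjective.1 hτinj
  choose σ hσ using hτsurj
  have hP : ∀ i, ![f i 0, f i 1] = vT (σ i) := by
    intro i
    rw [← hτ (σ i), hσ i]
  have hσinj : Function.Injective σ := by
    intro i i' h
    rw [← hσ i, ← hσ i', h]
  have hP0 : ∀ i, f i 0 = vT (σ i) 0 := fun i => by rw [← hP i]; rfl
  have hP1 : ∀ i, f i 1 = vT (σ i) 1 := fun i => by rw [← hP i]; rfl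
  have hPk : ∀ i j : Fin 6, i ≠ j → ¬ (f i 0 = f j 0 ∧ f i 1 = f j 1) := by
    rintro i j hij ⟨h0, h1⟩
    apply hij
    apply hσinj
    apply vT_inj
    rw [← hP i, ← hP j, h0, h1]
  -- consecutive vertices of the circuit go to adjacent vertices of the hexagon
  have hne1 : ∀ i : Fin 6, i ≠ i + 1 := by decide
  have hstep : ∀ i : Fin 6, σ (i + 1) = σ i + 1 ∨ σ (i + 1) = σ i - 1 := by
    intro i
    by_contra hcon
    push Not at hcon
    have hm := mid (σ i) (σ (i + 1)) (fun h => hne1 i (hσinj h)) hcon.1 hcon.2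
    obtain ⟨d, hd, hd1, hd2⟩ := cyc_dart i
    have hseg : (1 / 2 : ℝ) • f i + (1 / 2 : ℝ) • f (i + 1) ∈
        ⋃ d ∈ cyc.darts, segment ℝ (f d.fst) (f d.snd) := by
      refine Set.mem_biUnion hd ?_
      rw [hd1, hd2]
      exact ⟨1 / 2, 1 / 2, by norm_num, by norm_num, by norm_num, rfl⟩
    rw [← hfr] at hseg
    have hfr' := hseg.1
    simp only [Set.mem_preimage] at hfr'
    have heq : ![((1 / 2 : ℝ) • f i + (1 / 2 : ℝ) • f (i + 1)) 0,
        ((1 / 2 : ℝ) • f i + (1 / 2 : ℝ) • f (i + 1)) 1] =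
        (fun k => (vT (σ i) k + vT (σ (i + 1)) k) / 2) := by
      funext k
      fin_cases k
      · show 1 / 2 * f i 0 + 1 / 2 * f (i + 1) 0 = (vT (σ i) 0 + vT (σ (i + 1)) 0) / 2
        rw [hP0, hP0]; ring
      · show 1 / 2 * f i 1 + 1 / 2 * f (i + 1) 1 = (vT (σ i) 1 + vT (σ (i + 1)) 1) / 2
        rw [hP1, hP1]; ring
    rw [heq] at hfr'
    exact hfr'.2 (HexO_sub hm)
  have hprev : ∀ i : Fin 6, σ (i - 1) = σ i + 1 ∨ σ (i - 1) = σ i - 1 := by
    intro i
    have h := hstep (i - 1)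
    rw [sub_add_cancel] at h
    rcases h with h | h
    · right; rw [h, add_sub_cancel_right]
    · left; rw [h, sub_add_cancel]
  have hne2 : ∀ i : Fin 6, i + 1 ≠ i - 1 := by decide
  have hrel : ∀ (i : Fin 6) (k : Fin 2), vT (σ (i + 1)) k + vT (σ (i - 1)) k = vT (σ i) k :=
    fun i k => sum_nb (σ i) _ _ (hstep i) (hprev i) (fun h => hne2 i (hσinj h)) k
  have r0 : ∀ i : Fin 6, f (i + 1) 0 + f (i - 1) 0 = f i 0 := by
    intro i; rw [hP0, hP0, hP0]; exact hrel i 0
  have r1 : ∀ i : Fin 6, f (i + 1) 1 + f (i - 1) 1 = f i 1 := by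
    intro i; rw [hP1, hP1, hP1]; exact hrel i 1
  have a0 : f 1 0 + f 5 0 = f 0 0 := r0 0
  have a1 : f 2 0 + f 0 0 = f 1 0 := r0 1
  have a2 : f 3 0 + f 1 0 = f 2 0 := r0 2
  have a3 : f 4 0 + f 2 0 = f 3 0 := r0 3
  have a4 : f 5 0 + f 3 0 = f 4 0 := r0 4
  have a5 : f 0 0 + f 4 0 = f 5 0 := r0 5
  have b0 : f 1 1 + f 5 1 = f 0 1 := r1 0
  have b1 : f 2 1 + f 0 1 = f 1 1 := r1 1
  have b2 : f 3 1 + f 1 1 = f 2 1 := r1 2
  have b3 : f 4 1 + f 2 1 = f 3 1 := r1 3
  have b4 : f 5 1 + f 3 1 = f 4 1 := r1 4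
  have b5 : f 0 1 + f 4 1 = f 5 1 := r1 5
  have E : ∀ u w : Fin 6, G.Adj u w →
      IsExtreme ℝ (convexHull ℝ (Set.range f)) (segment ℝ (f u) (f w)) :=
    fun u w h => ((hadj u w).1 h).2
  -- edge 03 : chords 14 and 25 at the centre
  have q1 := side f hinj hext 0 3 (E 0 3 (by decide)) (hPk 0 3 (by decide)) 1 4 2 5
    (by decide) (by decide) (by decide) (by decide) (1/2) (1/2) (1/2) (1/2)
    (by norm_num) (by norm_num) (by norm_num) (by norm_num) (by norm_num) (by norm_num)
    (by norm_num) (by norm_num) (by linarith) (by linarith) (by linarith) (by linarith)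
  -- edge 25 : chord 03 at the centre, chord 13
  have q2 := side f hinj hext 2 5 (E 2 5 (by decide)) (hPk 2 5 (by decide)) 0 3 1 3
    (by decide) (by decide) (by decide) (by decide) (1/2) (1/4) (1/2) (1/2)
    (by norm_num) (by norm_num) (by norm_num) (by norm_num) (by norm_num) (by norm_num)
    (by norm_num) (by norm_num) (by linarith) (by linarith) (by linarith) (by linarith)
  -- edge 13 : chord 25, chord 02
  have q3 := side f hinj hext 1 3 (E 1 3 (by decide)) (hPk 1 3 (by decide)) 2 5 0 2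
    (by decide) (by decide) (by decide) (by decide) (1/2) (1/3) (1/4) (2/3)
    (by norm_num) (by norm_num) (by norm_num) (by norm_num) (by norm_num) (by norm_num)
    (by norm_num) (by norm_num) (by linarith) (by linarith) (by linarith) (by linarith)
  -- edge 02 : chord 13, chord 15
  have q4 := side f hinj hext 0 2 (E 0 2 (by decide)) (hPk 0 2 (by decide)) 1 3 1 5
    (by decide) (by decide) (by decide) (by decide) (2/3) (1/3) (1/3) (1/3)
    (by norm_num) (by norm_num) (by norm_num) (by norm_num) (by norm_num) (by norm_num)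
    (by norm_num) (by norm_num) (by linarith) (by linarith) (by linarith) (by linarith)
  -- edge 25 : chord 03 at the centre, chord 40
  have q5 := side f hinj hext 2 5 (E 2 5 (by decide)) (hPk 2 5 (by decide)) 0 3 4 0
    (by decide) (by decide) (by decide) (by decide) (1/2) (3/4) (1/2) (1/2)
    (by norm_num) (by norm_num) (by norm_num) (by norm_num) (by norm_num) (by norm_num)
    (by norm_num) (by norm_num) (by linarith) (by linarith) (by linarith) (by linarith)
  -- edge 04 : chord 25, chord 35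
  have q6 := side f hinj hext 0 4 (E 0 4 (by decide)) (hPk 0 4 (by decide)) 2 5 3 5
    (by decide) (by decide) (by decide) (by decide) (1/2) (2/3) (3/4) (2/3)
    (by norm_num) (by norm_num) (by norm_num) (by norm_num) (by norm_num) (by norm_num)
    (by norm_num) (by norm_num) (by linarith) (by linarith) (by linarith) (by linarith)
  -- edge 35 : chord 04, chord 42
  have q7 := side f hinj hext 3 5 (E 3 5 (by decide)) (hPk 3 5 (by decide)) 0 4 4 2
    (by decide) (by decide) (by decide) (by decide) (2/3) (1/3) (2/3) (1/3)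
    (by norm_num) (by norm_num) (by norm_num) (by norm_num) (by norm_num) (by norm_num)
    (by norm_num) (by norm_num) (by linarith) (by linarith) (by linarith) (by linarith)
  set h0 := f 0 2
  set h1 := f 1 2
  set h2 := f 2 2
  set h3 := f 3 2
  set h4 := f 4 2
  set h5 := f 5 2
  rcases lt_trichotomy ((1 - 1/2) * h2 + 1/2 * h5 - ((1 - 1/2) * h0 + 1/2 * h3)) 0 with hA | hA | hA
  · have c1 := neg_of_mul_pos_left q1 hA.le
    have c2 : 0 < (1 - 1/2) * h0 + 1/2 * h3 - ((1 - 1/2) * h2 + 1/2 * h5) := by linarith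
    have c3 := pos_of_mul_pos_right q2 c2.le
    have c4 : (1 - 1/4) * h2 + 1/4 * h5 - ((1 - 1/2) * h1 + 1/2 * h3) < 0 := by linarith
    have c5 := neg_of_mul_pos_right q3 c4.le
    have c6 : 0 < (1 - 1/3) * h1 + 1/3 * h3 - ((1 - 2/3) * h0 + 2/3 * h2) := by linarith
    have c7 := pos_of_mul_pos_right q4 c6.le
    have c8 := pos_of_mul_pos_right q5 c2.le
    have c9 : (1 - 3/4) * h2 + 3/4 * h5 - ((1 - 1/2) * h0 + 1/2 * h4) < 0 := by linarith
    have c10 := neg_of_mul_pos_right q6 c9.le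
    have c11 : 0 < (1 - 2/3) * h0 + 2/3 * h4 - ((1 - 2/3) * h3 + 2/3 * h5) := by linarith
    have c12 := pos_of_mul_pos_right q7 c11.le
    linarith
  · rw [hA, mul_zero] at q1
    exact lt_irrefl _ q1
  · have c1 := pos_of_mul_pos_left q1 hA.le
    have c2 : (1 - 1/2) * h0 + 1/2 * h3 - ((1 - 1/2) * h2 + 1/2 * h5) < 0 := by linarith
    have c3 := neg_of_mul_pos_right q2 c2.le
    have c4 : 0 < (1 - 1/4) * h2 + 1/4 * h5 - ((1 - 1/2) * h1 + 1/2 * h3) := by linarith
    have c5 := pos_of_mul_pos_right q3 c4.le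
    have c6 : (1 - 1/3) * h1 + 1/3 * h3 - ((1 - 2/3) * h0 + 2/3 * h2) < 0 := by linarith
    have c7 := neg_of_mul_pos_right q4 c6.le
    have c8 := neg_of_mul_pos_right q5 c2.le
    have c9 : 0 < (1 - 3/4) * h2 + 3/4 * h5 - ((1 - 1/2) * h0 + 1/2 * h4) := by linarith
    have c10 := pos_of_mul_pos_right q6 c9.le
    have c11 : (1 - 2/3) * h0 + 2/3 * h4 - ((1 - 2/3) * h3 + 2/3 * h5) < 0 := by linarith
    have c12 := neg_of_mul_pos_right q7 c11.le
    linarith

end Pool.Agent.W514.Shadow
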